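import Pool.Agent.R560.Repair.Main

/-!
# The repair bound is attained for `(q, r, ℓ) = (4, 3, 2)`, where `r - 1` does not divide `q - 1`

Definitions (`IsMDS`, `IsRepair`, `BW`, `beta`, `betaAvg`, `boundB`) are in
`Pool.Agent.R560.Repair.Defs`.
-/

set_option autoImplicit false

namespace Pool.Agent.Results.MP_e76747_lc.AttainedFourThreeTwo

open Pool.Agent.R560.Repair

/-- For `(q, r, ℓ) = (4, 3, 2)` one has `(r - 1) ∤ (q - 1)`, and for every length `n` with
`14 ≤ n ≤ 18 = q^ℓ + r - 1` there is an `(n, n - 3, 2)` MDS array code over the field with four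
elements whose average repair bandwidth equals `B(n, 3, 2, 4)`. -/
theorem result : ¬ (3 - 1 ∣ 4 - 1) ∧
    ∀ (F : Type) [Field F] [Fintype F], Fintype.card F = 4 → ∀ n : ℕ, 14 ≤ n → n ≤ 18 →
      ∃ H : Fin n → Matrix (Fin (3 * 2)) (Fin 2) F,
        IsMDS (r := 3) (ℓ := 2) H ∧ betaAvg (r := 3) (ℓ := 2) H = boundB n 3 2 4 := by
  refine ⟨by norm_num, ?_⟩
  intro F _ _ hF n h14 h18
  have e : F4 ≃+* F := FiniteField.ringEquivOfCardEq (by rw [F4.card, hF])
  exact ⟨HH e h18, isMDS e h18, betaAvg_eq e h18 h14⟩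

end Pool.Agent.Results.MP_e76747_lc.AttainedFourThreeTwo
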